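import Mathlib
import Pool.Agent.Helper358.BP7

/-!
# Nonseparable subspaces of `ℓ_∞` with infinite Banach-Mazur diameter, in ZFC
-/

set_option autoImplicit false

namespace Pool.Agent.Results.MP_89a7db_an.TwoCases

open Cardinal
open scoped ENNReal NNReal

/-- The space `ℓ_∞` of bounded real sequences. -/
abbrev Linf : Type := lp (fun _ : ℕ => ℝ) ∞

/-- The Banach-Mazur distance `d(Y, Z) = inf ‖T‖ ‖T⁻¹‖`, over all linear isomorphisms `T` of `Y`
onto `Z`, as an element of `[0, ∞]`. -/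
noncomputable def bmDist (Y Z : Type) [NormedAddCommGroup Y] [NormedSpace ℝ Y]
    [NormedAddCommGroup Z] [NormedSpace ℝ Z] : ℝ≥0∞ :=
  ⨅ T : Y ≃L[ℝ] Z, ENNReal.ofReal (‖(T : Y →L[ℝ] Z)‖ * ‖(T.symm : Z →L[ℝ] Y)‖)

/-- `D(X) = sup d(Y, Z)`, over all Banach spaces `Y` and `Z` isomorphic to `X`, as an element of
`[0, ∞]`. -/
noncomputable def bmDiam (X : Type) [NormedAddCommGroup X] [NormedSpace ℝ X] : ℝ≥0∞ :=
  ⨆ (Y : Type) (_ : NormedAddCommGroup Y) (_ : NormedSpace ℝ Y) (_ : CompleteSpace Y)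
    (Z : Type) (_ : NormedAddCommGroup Z) (_ : NormedSpace ℝ Z) (_ : CompleteSpace Z)
    (_ : Nonempty (X ≃L[ℝ] Y)) (_ : Nonempty (X ≃L[ℝ] Z)), bmDist Y Z

/-- The finite-dimensional spaces are not uniformly complemented in `X`: for every `C` there is a
finite-dimensional `E` such that `‖a‖ ‖b‖ > C` whenever `a : E → X`, `b : X → E` and `b ∘ a = id`. -/
def NotUniformlyComplemented (X : Type) [NormedAddCommGroup X] [NormedSpace ℝ X] : Prop :=
  ∀ C : ℝ, ∃ (E : Type) (_ : NormedAddCommGroup E) (_ : NormedSpace ℝ E)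
    (_ : FiniteDimensional ℝ E), ∀ (a : E →L[ℝ] X) (b : X →L[ℝ] E), (∀ e, b (a e) = e) →
    C < ‖a‖ * ‖b‖

/-- For every `δ > 0` there is an uncountable bounded `δ`-biorthogonal system. -/
def UncountableAlmostBiorthogonal (X : Type) [NormedAddCommGroup X] [NormedSpace ℝ X] : Prop :=
  ∀ δ : ℝ, 0 < δ → ∃ (I : Type) (x : I → X) (f : I → StrongDual ℝ X) (D : ℝ),
    Uncountable I ∧ (∀ i, ‖x i‖ ≤ 1) ∧ (∀ i, ‖f i‖ ≤ D) ∧ (∀ i, f i (x i) = 1) ∧
    ∀ i j, i ≠ j → |f i (x j)| ≤ δ

theorem diam_of_far {X : Type} [NormedAddCommGroup X] [NormedSpace ℝ X]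
    (h : Pool.Agent.Helper358.BP.Far ℝ X) : bmDiam X = ∞ := by
  apply ENNReal.eq_top_of_forall_nnreal_le
  intro M
  obtain ⟨Y, Z, i1, i2, i3, i4, i5, i6, hY, hZ, h⟩ := h M
  have h1 : (M : ℝ≥0∞) ≤ bmDist Y Z := by
    apply le_iInf
    intro T
    rw [← ENNReal.ofReal_coe_nnreal]
    exact ENNReal.ofReal_le_ofReal (h T)
  refine h1.trans ?_
  unfold bmDiam
  exact le_iSup_of_le Y <| le_iSup_of_le i1 <| le_iSup_of_le i2 <| le_iSup_of_le i3 <|
    le_iSup_of_le Z <| le_iSup_of_le i4 <| le_iSup_of_le i5 <| le_iSup_of_le i6 <|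
    le_iSup_of_le hY <| le_iSup_of_le hZ le_rfl

/-- The coordinate functionals on `ℓ_∞`. -/
noncomputable def coord (n : ℕ) : StrongDual ℝ Linf :=
  LinearMap.mkContinuous
    { toFun := fun x => (x : ∀ _ : ℕ, ℝ) n
      map_add' := fun x y => rfl
      map_smul' := fun r x => rfl } 1 (fun x => by
        rw [one_mul]
        exact lp.norm_apply_le_norm ENNReal.top_ne_zero x n)

theorem coord_apply (n : ℕ) (x : Linf) : coord n x = (x : ∀ _ : ℕ, ℝ) n := rfl

theorem exists_coord (x : Linf) : ∃ n, 2⁻¹ * ‖x‖ ≤ |coord n x| := by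
  by_contra hcon
  push Not at hcon
  have h1 : ‖x‖ ≤ 2⁻¹ * ‖x‖ := by
    apply lp.norm_le_of_forall_le (by positivity)
    intro n
    exact (hcon n).le
  have h2 : ‖x‖ = 0 := by
    have := norm_nonneg x
    linarith
  have h3 := hcon 0
  rw [h2, mul_zero] at h3
  exact absurd h3 (not_lt.mpr (abs_nonneg _))

/-- **Theorem.** Let `X` be a nonseparable closed subspace of `ℓ_∞`. If the finite-dimensional
spaces are not uniformly complemented in `X`, or if for every `δ > 0` there is an uncountable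
bounded `δ`-biorthogonal system in `X`, then `D(X) = ∞`. -/
theorem result (X : Submodule ℝ Linf) (hX : IsClosed (X : Set Linf))
    (hns : ¬ TopologicalSpace.SeparableSpace X) :
    (NotUniformlyComplemented X → bmDiam X = ∞) ∧
    (UncountableAlmostBiorthogonal X → bmDiam X = ∞) := by
  have hc : CompleteSpace X := hX.completeSpace_coe
  constructor
  · intro h
    apply diam_of_far
    apply Pool.Agent.Helper358.BP.far_of_fin _ h
    intro hfin
    apply hns
    have : ProperSpace X := FiniteDimensional.proper_rclike ℝ X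
    infer_instance
  · intro h
    apply diam_of_far
    set G : Set (StrongDual ℝ X) := Set.range (fun n => (coord n).comp X.subtypeL) with hG
    apply Pool.Agent.Helper358.BP.far3 (J := PUnit) PUnit.unit (fun _ => {0})
      (fun _ g hg => by
        rw [Set.mem_singleton_iff.mp hg]
        exact ContinuousLinearMap.opNorm_le_bound _ zero_le_one (fun x => by simp)) (fun _ _ _ => le_rfl) (fun _ => ⊥) (fun _ _ _ => le_rfl) (C₀ := 1)
      zero_le_one (fun _ y hy => ⟨0, rfl, by
        rw [(Submodule.mem_bot ℝ).mp hy, norm_zero]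
        positivity⟩) G ?_ (C₁ := 2) zero_le_two ?_ ?_
    · rintro g ⟨n, rfl⟩
      apply ContinuousLinearMap.opNorm_le_bound _ zero_le_one
      intro x
      rw [one_mul]
      exact lp.norm_apply_le_norm ENNReal.top_ne_zero (x : Linf) n
    · intro x ζ η hζ hη hx
      refine ⟨PUnit.unit, 0, Submodule.zero_mem _, ?_⟩
      obtain ⟨n, hn⟩ := exists_coord (x : Linf)
      have h1 : ‖((coord n).comp X.subtypeL) x‖ ≤ ζ := hx _ ⟨n, rfl⟩
      have h2 : ‖((coord n).comp X.subtypeL) x‖ = |coord n (x : Linf)| := rfl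
      have h3 : ‖x‖ = ‖(x : Linf)‖ := rfl
      rw [zero_sub, norm_neg, h3]
      rw [h2] at h1
      linarith
    · intro δ hδ
      obtain ⟨I, x, f, D, hI, h1, h2, h3, h4⟩ := h δ hδ
      have hI' : ℵ₀ < #I := aleph0_lt_mk_iff.mpr hI
      refine ⟨I, x, f, D, hI', ?_, ?_, h1, h2, h3, h4⟩
      · intro j
        rw [mk_singleton]
        exact one_lt_aleph0.trans hI'
      · exact (mk_range_le).trans_lt (by simpa using hI')

end Pool.Agent.Results.MP_89a7db_an.TwoCases
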